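import Mathlib
import Pool.Agent.H922R2.OPC.Stubs2

/-! Task FIR: the curve is finite over the `P`-line. -/

set_option autoImplicit false

open MvPolynomial

namespace Pool.Agent.H761R2.OPCFIR

open Pool.Agent.H922R2.OPC

/-- a root of a monic polynomial with integral coefficients is integral -/
lemma gen {R S : Type} [CommRing R] [CommRing S] (F : R →+* S) (y : S) (n : ℕ) (a : ℕ → S)
    (ha : ∀ j, F.IsIntegralElem (a j)) (h : y ^ n + ∑ j ∈ Finset.range n, a j * y ^ j = 0) :
    F.IsIntegralElem y := by
  let _ := F.toAlgebra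
  have ha' : ∀ j, IsIntegral R (a j) := ha
  have h1 : IsIntegral (integralClosure R S) y := by
    let b : ℕ → integralClosure R S := fun j => ⟨a j, ha' j⟩
    refine ⟨Polynomial.X ^ n + ∑ j : Fin n, Polynomial.C (b j) * Polynomial.X ^ (j : ℕ), ?_, ?_⟩
    · exact Polynomial.monic_X_pow_add (Polynomial.degree_sum_fin_lt _)
    · rw [Polynomial.eval₂_add, Polynomial.eval₂_X_pow, Polynomial.eval₂_finsetSum]
      rw [← h, Finset.sum_range]
      congr 1
      apply Finset.sum_congr rfl
      intro j _
      rw [Polynomial.eval₂_mul, Polynomial.eval₂_C, Polynomial.eval₂_X_pow]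
      rfl
  exact isIntegral_trans y h1

lemma intAeval {R S : Type} {k : Type} [Field k] [CommRing R] [CommRing S] [Algebra k R] [Algebra k S]
    (F : R →ₐ[k] S) (x : S) (hx : F.toRingHom.IsIntegralElem x) (p : Polynomial k) :
    F.toRingHom.IsIntegralElem (Polynomial.aeval x p) := by
  have hC : ∀ c : k, F.toRingHom.IsIntegralElem (algebraMap k S c) := by
    intro c
    have h1 : F.toRingHom (algebraMap k R c) = algebraMap k S c := F.commutes c
    rw [← h1]
    exact F.toRingHom.isIntegralElem_map
  induction p using Polynomial.induction_on with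
  | C c => rw [Polynomial.aeval_C]; exact hC c
  | add p q hp hq => rw [map_add]; exact RingHom.IsIntegralElem.add _ hp hq
  | monomial n c ih =>
    rw [pow_succ, ← mul_assoc, map_mul, Polynomial.aeval_X]
    exact RingHom.IsIntegralElem.mul _ ih hx

section
variable {k : Type} [Field k]

lemma am (c : k) : (algebraMap k (L k)) c = HahnSeries.C (Polynomial.C c) := by
  rw [HahnSeries.algebraMap_apply', PowerSeries.algebraMap_apply, HahnSeries.ofPowerSeries_C]
  rfl

/-- `x ↦ Z`, `y ↦ λ` -/
noncomputable def T : B k →ₐ[k] Polynomial (Polynomial k) :=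
  aeval ![Polynomial.X, Polynomial.C Polynomial.X]

lemma tp_mul (i j : ℤ) : tp (k := k) i * tp j = tp (i + j) := by
  unfold tp
  rw [HahnSeries.single_mul_single, one_mul]

lemma coeff_key (n : ℕ) (hn : 0 < n) (f : B k) (φ : L k) (hf : ev n φ f = lam) (g : B k) (i : ℕ) :
    (ev n φ (aeval ![X 0, f] g)).coeff (-((n * i : ℕ) : ℤ)) = (T g).coeff i := by
  -- the embedding `Z ↦ t^(-n)`
  let Em : Polynomial (Polynomial k) →+* L k :=
    Polynomial.eval₂RingHom (HahnSeries.C : Polynomial k →+* L k) (tp (-(n : ℤ)))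
  have h1 : ev n φ (aeval ![X 0, f] g) = Em (T g) := by
    have h2 : ((ev n φ).comp (aeval ![X 0, f]) : B k →+* L k) = Em.comp (T : B k →ₐ[k] _).toRingHom := by
      apply MvPolynomial.ringHom_ext
      · intro c
        simp only [Em, T]
        simp [ev, am]
      · intro j
        fin_cases j
        · simp [Em, T, ev]
        · simp [Em, T, hf, lam]
    have h3 := congrArg (fun r => r g) h2
    exact h3
  rw [h1]
  have h4 : ∀ p : Polynomial (Polynomial k), (Em p).coeff (-((n * i : ℕ) : ℤ)) = p.coeff i := by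
    intro p
    have h5 : ∀ j : ℕ, (tp (-(n : ℤ)) : L k) ^ j = tp (-((n * j : ℕ) : ℤ)) := by
      intro j
      induction j with
      | zero => simp [tp]
      | succ j ih =>
        rw [pow_succ, ih, tp_mul]
        congr 1
        push_cast
        ring
    induction p using Polynomial.induction_on' with
    | add p q hp hq => rw [map_add, HahnSeries.coeff_add, hp, hq, Polynomial.coeff_add]
    | monomial j c =>
      have h6 : Em (Polynomial.monomial j c) = HahnSeries.C c * tp (-((n * j : ℕ) : ℤ)) := by
        simp only [Em, Polynomial.coe_eval₂RingHom, Polynomial.eval₂_monomial]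
        rw [h5]
      rw [h6, Polynomial.coeff_monomial, HahnSeries.C_mul_eq_smul, HahnSeries.coeff_smul, tp,
        HahnSeries.coeff_single]
      split_ifs with h7 h8 h8
      · simp
      · exfalso
        apply h8
        have : ((n * i : ℕ) : ℤ) = ((n * j : ℕ) : ℤ) := by omega
        have h9 : n * i = n * j := by exact_mod_cast this
        exact (Nat.eq_of_mul_eq_mul_left hn h9).symm
      · exfalso
        apply h7
        rw [h8]
      · simp
  exact h4 _

lemma rot_coeff (c : k) (h : L k) (i : ℤ) : (rot c h).coeff i = Polynomial.C (c ^ i) * h.coeff i := rfl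

lemma rot_ge (c : k) (h : L k) (w : ℤ) (hh : Ge w h) : Ge w (rot c h) := by
  intro i hi
  rw [rot_coeff, hh i hi, mul_zero]

lemma rot_one (h : L k) : rot 1 h = h := by
  ext i
  rw [rot_coeff]
  simp

theorem ge_sub {R : Type} [CommRing R] {u : ℤ} {g h : LaurentSeries R} (hg : Ge u g)
    (hh : Ge u h) : Ge u (g - h) := by
  intro i hi
  rw [HahnSeries.coeff_sub, hg i hi, hh i hi, sub_zero]

theorem ge_zero {R : Type} [CommRing R] (u : ℤ) : Ge u (0 : LaurentSeries R) := by
  intro i _
  rw [HahnSeries.coeff_zero]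

theorem ge_neg {R : Type} [CommRing R] {u : ℤ} {g : LaurentSeries R} (hg : Ge u g) :
    Ge u (-g) := by
  intro i hi
  rw [HahnSeries.coeff_neg, hg i hi, neg_zero]

theorem prgG (hM : S_MUL) {R : Type} [CommRing R] [Nontrivial R] (n : ℕ) (s : ℕ → LaurentSeries R) (w : ℤ) :
    (∀ i < n, Ge w (s i)) → ∀ l ≤ n,
    Ge (((n : ℤ) - l) * w)
      ((∏ i ∈ Finset.range n, (Polynomial.X - Polynomial.C (s i))).coeff l) := by
  have key : (∀ i < n, Ge w (s i)) →
      (∀ l ≤ n, Ge (((n : ℤ) - l) * w)
        ((∏ i ∈ Finset.range n, (Polynomial.X - Polynomial.C (s i))).coeff l)) ∧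
      ∀ l, n < l → (∏ i ∈ Finset.range n, (Polynomial.X - Polynomial.C (s i))).coeff l = 0 := by
    induction n with
    | zero =>
      intro _
      constructor
      · intro l hl
        obtain rfl : l = 0 := by omega
        simp only [Finset.range_zero, Finset.prod_empty, Polynomial.coeff_one_zero]
        intro i hi
        have hi' : i < 0 := by simpa using hi
        rw [HahnSeries.coeff_one, if_neg (ne_of_lt hi')]
      · intro l hl
        rw [Finset.range_zero, Finset.prod_empty, Polynomial.coeff_one, if_neg (by omega)]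
    | succ n ih =>
      intro hs
      obtain ⟨h1, h2⟩ := ih (fun i hi => hs i (by omega))
      have hsn : Ge w (s n) := hs n (by omega)
      constructor
      · intro l hl
        rw [Finset.prod_range_succ]
        cases l with
        | zero =>
          have h3 := (hM R _ _ _ _ (h1 0 (by omega)) hsn).1
          have h4 : (((n : ℤ) - ((0 : ℕ) : ℤ)) * w + w) =
              ((((n + 1 : ℕ) : ℤ)) - ((0 : ℕ) : ℤ)) * w := by
            push_cast
            ring
          rw [h4] at h3
          have h5 := ge_neg h3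
          rw [Polynomial.mul_coeff_zero, Polynomial.coeff_sub, Polynomial.coeff_X_zero,
            Polynomial.coeff_C_zero, zero_sub]
          have h6 : ∀ a b : LaurentSeries R, a * -b = -(a * b) := fun a b => mul_neg a b
          rw [h6]
          exact h5
        | succ m =>
          rw [Polynomial.coeff_mul_X_sub_C]
          have h4 : ((((n + 1 : ℕ) : ℤ)) - ((m + 1 : ℕ) : ℤ)) * w = ((n : ℤ) - (m : ℤ)) * w := by
            push_cast
            ring
          rw [h4]
          apply ge_sub (h1 m (by omega))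
          by_cases hm : m + 1 ≤ n
          · have h3 := (hM R _ _ _ _ (h1 (m + 1) hm) hsn).1
            have h5 : (((n : ℤ) - ((m + 1 : ℕ) : ℤ)) * w + w) = ((n : ℤ) - (m : ℤ)) * w := by
              push_cast
              ring
            rw [h5] at h3
            exact h3
          · rw [h2 (m + 1) (by omega), zero_mul]
            exact ge_zero _
      · intro l hl
        rw [Finset.prod_range_succ]
        cases l with
        | zero => omega
        | succ m =>
          rw [Polynomial.coeff_mul_X_sub_C, h2 m (by omega), h2 (m + 1) (by omega), zero_mul,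
            sub_zero]
  intro hs
  exact (key hs).1

theorem prod_lowG (S_mul : S_MUL) {R : Type} [CommRing R] (n : ℕ) (s : ℕ → LaurentSeries R) (w : ℤ)
    (hs : ∀ i < n, Ge w (s i)) :
    Ge ((n : ℤ) * w) (∏ i ∈ Finset.range n, s i) ∧
      (∏ i ∈ Finset.range n, s i).coeff ((n : ℤ) * w) = ∏ i ∈ Finset.range n, (s i).coeff w := by
  induction n with
  | zero =>
    constructor
    · intro i hi
      rw [Finset.prod_range_zero, HahnSeries.coeff_one, if_neg]
      push_cast at hi
      omega
    · simp
  | succ n ih =>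
    have h1 := ih (fun i hi => hs i (by omega))
    have h2 := S_mul R _ _ _ _ h1.1 (hs n (by omega))
    have e : ((n + 1 : ℕ) : ℤ) * w = (n : ℤ) * w + w := by push_cast; ring
    rw [e, Finset.prod_range_succ, Finset.prod_range_succ]
    refine ⟨h2.1, ?_⟩
    rw [h2.2, h1.2]

end

theorem fir (k : Type) [Field k] [IsAlgClosed k] [CharZero k] : S_FIR k := by
  intro S_mul _ S_spr S_rot S_evf S_inj S_chr S_mon n f φ ζ h₁ _ P d hd hP1 hP2
  classical
  have ev1 : ev n φ f = lam := S_evf _ _ _ _ h₁
  have inj := S_inj S_evf S_mon _ _ _ _ h₁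
  have hn1 : 0 < n := h₁.1
  have chr : ∀ l, ∃ g : B k, _ := S_chr S_rot S_evf S_mon _ _ _ _ h₁ P
  choose g hg using chr
  obtain ⟨R0, hR0⟩ := S_spr 0
  have spc : ∀ (h : L k) (i : ℤ), (sp 0 h).coeff i = (h.coeff i).eval 0 := fun _ _ => rfl
  set s : ℕ → L k := fun i => rot (ζ ^ i) (ev n φ P) with hs
  set Pi : Polynomial (L k) := ∏ i ∈ Finset.range n, (Polynomial.X - Polynomial.C (s i)) with hPi
  have hssp : ∀ i j, (sp 0 (s i)).coeff j = (ζ ^ i) ^ j * (sp 0 (ev n φ P)).coeff j := by
    intro i j
    rw [spc, spc, hs]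
    simp only
    rw [rot_coeff, Polynomial.eval_mul, Polynomial.eval_C]
  have hsge : ∀ i < n, Ge (-(d : ℤ)) (sp 0 (s i)) := by
    intro i _ j hj
    rw [hssp, hP1 j hj, mul_zero]
  -- the relation
  have hrel : ∑ l ∈ Finset.range (n + 1), aeval ![X 0, f] (g l) * P ^ l = 0 := by
    apply inj
    rw [map_zero, map_sum]
    have h1 : Pi.natDegree < n + 1 := by
      rw [hPi]
      refine lt_of_le_of_lt (Polynomial.natDegree_prod_le _ _) ?_
      refine lt_of_le_of_lt (Finset.sum_le_card_nsmul _ _ 1 ?_) ?_
      · intro i _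
        exact Polynomial.natDegree_X_sub_C_le _
      · simp
    have h2 := Polynomial.eval_eq_sum_range' h1 (ev n φ P)
    have h3 : Pi.eval (ev n φ P) = 0 := by
      rw [hPi, Polynomial.eval_prod]
      apply Finset.prod_eq_zero (Finset.mem_range.2 hn1)
      rw [hs]
      simp only [pow_zero, rot_one, Polynomial.eval_sub, Polynomial.eval_X, Polynomial.eval_C, sub_self]
    rw [h3] at h2
    rw [h2]
    apply Finset.sum_congr rfl
    intro l _
    rw [map_mul, map_pow, ← hg l]
  -- the specialised product
  have hPi0 : Pi.map R0 = ∏ i ∈ Finset.range n, (Polynomial.X - Polynomial.C (sp 0 (s i))) := by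
    rw [hPi, Polynomial.map_prod]
    apply Finset.prod_congr rfl
    intro i _
    rw [Polynomial.map_sub, Polynomial.map_X, Polynomial.map_C, hR0]
  have hPi1 : ∀ l, sp 0 (Pi.coeff l) =
      (∏ i ∈ Finset.range n, (Polynomial.X - Polynomial.C (sp 0 (s i)))).coeff l := by
    intro l
    rw [← hPi0, Polynomial.coeff_map, hR0]
  -- the coefficients
  let c : ℕ → Polynomial k := fun l => (T (g l)).map (Polynomial.evalRingHom 0)
  have hco : ∀ l i, (c l).coeff i = (sp 0 (Pi.coeff l)).coeff (-((n * i : ℕ) : ℤ)) := by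
    intro l i
    show ((T (g l)).map (Polynomial.evalRingHom 0)).coeff i = _
    rw [Polynomial.coeff_map, ← coeff_key n hn1 f φ ev1 (g l) i, ← hg l, spc]
    rfl
  have hvan : ∀ l i, l ≤ n → (n - l) * d < n * i → (c l).coeff i = 0 := by
    intro l i hl hi
    rw [hco, hPi1]
    apply prgG S_mul n (fun i => sp 0 (s i)) (-(d : ℤ)) hsge l hl
    have h1 : (((n - l) * d : ℕ) : ℤ) < ((n * i : ℕ) : ℤ) := by exact_mod_cast hi
    rw [Nat.cast_mul, Nat.cast_sub hl] at h1
    linarith
  set π : k := (sp 0 (ev n φ P)).coeff (-(d : ℤ)) with hπ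
  set γ : k := ∏ i ∈ Finset.range n, (-((ζ ^ i) ^ (-(d : ℤ)) * π)) with hγ
  have hγ0 : γ ≠ 0 := by
    rw [hγ, Finset.prod_ne_zero_iff]
    intro i _
    have hz : ζ ≠ 0 := h₁.2.1.ne_zero hn1.ne'
    exact neg_ne_zero.2 (mul_ne_zero (zpow_ne_zero _ (pow_ne_zero _ hz)) hP2)
  have hlead : (c 0).coeff d = γ := by
    rw [hco, hPi1, Polynomial.coeff_zero_eq_eval_zero, Polynomial.eval_prod]
    have h1 : ∀ i ∈ Finset.range n, Polynomial.eval 0 (Polynomial.X - Polynomial.C (sp 0 (s i))) =
        - sp 0 (s i) := by
      intro i _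
      simp
    rw [Finset.prod_congr rfl h1]
    have h2 := (prod_lowG S_mul n (fun i => - sp 0 (s i)) (-(d : ℤ)) (by
      intro i hi j hj
      rw [HahnSeries.coeff_neg, hsge i hi j hj, neg_zero])).2
    have e : ((n : ℤ) * (-(d : ℤ))) = -((n * d : ℕ) : ℤ) := by push_cast; ring
    rw [e] at h2
    rw [h2, hγ]
    apply Finset.prod_congr rfl
    intro i _
    rw [HahnSeries.coeff_neg, hssp]
  -- the quotient
  let mk : B k →ₐ[k] B k ⧸ Ideal.span {f} := Ideal.Quotient.mkₐ k (Ideal.span {f})
  have hmk : ∀ b : B k, mk b = 0 ↔ f ∣ b := by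
    intro b
    show Ideal.Quotient.mk (Ideal.span {f}) b = 0 ↔ _
    rw [Ideal.Quotient.eq_zero_iff_mem, Ideal.mem_span_singleton]
  have hmf : mk f = 0 := (hmk f).2 dvd_rfl
  let F : Polynomial k →ₐ[k] B k ⧸ Ideal.span {f} := mk.comp (Polynomial.aeval P)
  set p : Polynomial (Polynomial k) := ∑ l ∈ Finset.range (n + 1),
    (c l).map (Polynomial.C : k →+* Polynomial k) * Polynomial.C ((Polynomial.X : Polynomial k) ^ l) with hp
  have hcT : ∀ l, mk (Polynomial.aeval (X 0) (c l)) = mk (aeval ![X 0, f] (g l)) := by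
    intro l
    have h2 : (((mk.comp (Polynomial.aeval (X 0 : B k))).toRingHom).comp
        (Polynomial.mapRingHom (Polynomial.evalRingHom (0 : k)))).comp
          (T : B k →ₐ[k] _).toRingHom =
        (mk.comp (aeval ![X 0, f] : B k →ₐ[k] B k)).toRingHom := by
      apply MvPolynomial.ringHom_ext
      · intro c
        simp [T]
      · intro j
        fin_cases j
        · simp [T]
        · simp [T, hmf]
    exact congrArg (fun r => r (g l)) h2
  have hpe : Polynomial.eval₂ F.toRingHom (mk (X 0)) p = 0 := by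
    have h0 : mk (∑ l ∈ Finset.range (n + 1), aeval ![X 0, f] (g l) * P ^ l) = 0 := by
      rw [hrel, map_zero]
    rw [hp, Polynomial.eval₂_finsetSum, ← h0, map_sum]
    apply Finset.sum_congr rfl
    intro l _
    rw [Polynomial.eval₂_mul, Polynomial.eval₂_C, Polynomial.eval₂_map, map_mul, ← hcT l, map_pow]
    congr 1
    · have h5 : F.toRingHom.comp (Polynomial.C : k →+* Polynomial k) =
          algebraMap k (B k ⧸ Ideal.span {f}) := by
        ext a
        exact F.commutes a
      rw [h5]
      have h6 : mk (Polynomial.aeval (X 0 : B k) (c l)) = Polynomial.aeval (mk (X 0)) (c l) :=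
        (Polynomial.aeval_algHom_apply mk (X 0) (c l)).symm
      rw [h6]
      rfl
    · rw [map_pow mk]
      show (mk (Polynomial.aeval P Polynomial.X)) ^ l = _
      rw [Polynomial.aeval_X]
  have hpc : ∀ i, p.coeff i = ∑ l ∈ Finset.range (n + 1),
      Polynomial.C ((c l).coeff i) * (Polynomial.X : Polynomial k) ^ l := by
    intro i
    rw [hp, Polynomial.finsetSum_coeff]
    apply Finset.sum_congr rfl
    intro l _
    rw [Polynomial.coeff_mul_C, Polynomial.coeff_map]
  have hp1 : p.natDegree ≤ d := by
    rw [Polynomial.natDegree_le_iff_coeff_eq_zero]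
    intro i hi
    rw [hpc]
    apply Finset.sum_eq_zero
    intro l hl
    rw [hvan l i (by rw [Finset.mem_range] at hl; omega) ?_, map_zero, zero_mul]
    calc (n - l) * d ≤ n * d := Nat.mul_le_mul_right _ (Nat.sub_le _ _)
      _ < n * i := Nat.mul_lt_mul_of_pos_left hi hn1
  have hp2 : p.coeff d = Polynomial.C γ := by
    rw [hpc, Finset.sum_eq_single 0]
    · rw [hlead, pow_zero, mul_one]
    · intro l hl hl0
      rw [hvan l d (by rw [Finset.mem_range] at hl; omega) ?_, map_zero, zero_mul]
      apply Nat.mul_lt_mul_of_pos_right _ hd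
      omega
    · intro h; exact absurd (Finset.mem_range.2 (Nat.succ_pos _)) h
  have hx : F.toRingHom.IsIntegralElem (mk (X 0)) := by
    refine ⟨Polynomial.C (Polynomial.C γ⁻¹) * p, ?_, ?_⟩
    · apply Polynomial.monic_of_natDegree_le_of_coeff_eq_one d
      · exact (Polynomial.natDegree_C_mul_le _ _).trans hp1
      · rw [Polynomial.coeff_C_mul, hp2, ← map_mul, inv_mul_cancel₀ hγ0, map_one]
    · rw [Polynomial.eval₂_mul, hpe, mul_zero]
  -- `y`
  obtain ⟨a, ha⟩ := S_mon _ _ _ _ h₁
  have hy : F.toRingHom.IsIntegralElem (mk (X 1)) := by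
    apply gen F.toRingHom (mk (X 1)) n (fun j => Polynomial.aeval (mk (X 0)) (a j))
    · intro j
      exact intAeval F (mk (X 0)) hx (a j)
    · have h8 : mk f = mk (X 1) ^ n + ∑ j ∈ Finset.range n,
          Polynomial.aeval (mk (X 0)) (a j) * mk (X 1) ^ j := by
        have h9 := congrArg mk ha
        rw [map_add, map_pow, map_sum] at h9
        rw [h9]
        congr 1
        apply Finset.sum_congr rfl
        intro j _
        rw [map_mul, map_pow, Polynomial.aeval_algHom_apply]
      rw [← h8, hmf]
  have hall : ∀ z : B k, F.toRingHom.IsIntegralElem (mk z) := by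
    intro z
    induction z using MvPolynomial.induction_on with
    | C c =>
      have h1 : F.toRingHom (algebraMap k (Polynomial k) c) = mk (C c) := by
        have h2 : F (algebraMap k _ c) = algebraMap k _ c := F.commutes c
        have h3 : mk (algebraMap k (B k) c) = algebraMap k _ c := mk.commutes c
        exact h2.trans h3.symm
      rw [← h1]
      exact F.toRingHom.isIntegralElem_map
    | add p q hp hq => rw [map_add]; exact RingHom.IsIntegralElem.add _ hp hq
    | mul_X p i hp =>
      rw [map_mul]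
      apply RingHom.IsIntegralElem.mul _ hp
      fin_cases i
      · exact hx
      · exact hy
  intro z
  obtain ⟨m, hm1, hm2⟩ := hall z
  refine ⟨m, hm1, (hmk _).1 ?_⟩
  rw [← hm2]
  exact Polynomial.hom_eval₂ m _ mk.toRingHom z

end Pool.Agent.H761R2.OPCFIR
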